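import Mathlib
import Pool.Agent.H19.Sch4

set_option autoImplicit false

namespace Pool.Agent.Results.MP_4efd05_mp.Bound

open MeasureTheory Filter Topology Pool.Agent.H19.Sch
open scoped ContDiff

/-- admissible potential V(x,t) in dimension one -/
def Admissible (V : ℝ × ℝ → ℝ) : Prop :=
  (∀ z, 0 ≤ V z) ∧ V ≠ 0 ∧ ContDiff ℝ ∞ V ∧ (∀ k, ∃ C, ∀ z, ‖iteratedFDeriv ℝ k V z‖ ≤ C) ∧
    ∀ N : ℕ, ∃ C, ∀ x t, |V (x, t)| ≤ C * (1 + x ^ 2) ^ (-(N : ℝ) / 2)

/-- a smooth solution of the Schrodinger equation, continuous in time with values in L2 -/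
def Solves (V : ℝ × ℝ → ℝ) (ψ : ℝ × ℝ → ℂ) : Prop :=
  ContDiff ℝ ∞ ψ ∧
    (∀ x t, Complex.I * deriv (fun s => ψ (x, s)) t
      = - deriv (deriv fun y => ψ (y, t)) x + V (x, t) * ψ (x, t)) ∧
    (∀ t, MemLp (fun x => ψ (x, t)) 2) ∧
    ∀ s, Tendsto (fun t => ∫ x, ‖ψ (x, t) - ψ (x, s)‖ ^ 2) (𝓝 s) (𝓝 0)

/-- nonzero, with a weighted L2 norm bounded in time -/
def Localized (ψ : ℝ × ℝ → ℂ) : Prop :=
  ψ ≠ 0 ∧ ∃ δ : ℝ, 0 < δ ∧ ∃ C, ∀ t, Integrable (fun x => (1 + x ^ 2) ^ δ * ‖ψ (x, t)‖ ^ 2) ∧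
    ∫ x, (1 + x ^ 2) ^ δ * ‖ψ (x, t)‖ ^ 2 ≤ C

/-- the operator with potential W has no eigenvalue -/
def NoEigen (W : ℝ → ℝ) : Prop :=
  ∀ (E : ℝ) (f : ℝ → ℂ), Differentiable ℝ f → Differentiable ℝ (deriv f) → MemLp f 2 →
    (∀ x, - deriv (deriv f) x + W x * f x = E * f x) → f = 0

theorem result : ∃ (V : ℝ × ℝ → ℝ) (ψ : ℝ × ℝ → ℂ), Admissible V ∧ Solves V ψ ∧ Localized ψ ∧
    (∀ t, NoEigen fun x => V (x, t)) ∧ (∀ x t, 4 < |x| → V (x, t) = 0) ∧
    ∃ P : ℝ, 0 < P ∧ ∀ x t, V (x, t + P) = V (x, t) := by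
  obtain ⟨V, ψ, P, C, hP, sV, sψ, h0, hs, per, hne, hψ, hb, pde⟩ := exists_main
  have bd := bdd_derivs sV hP per hs
  obtain ⟨K, hK⟩ := bd 0
  simp only [norm_iteratedFDeriv_zero, Real.norm_eq_abs] at hK
  have hC : 0 ≤ C := by simpa using (norm_nonneg _).trans (hb (0, 0))
  have cx : ∀ t, Continuous fun x => ψ (x, t) := fun t =>
    sψ.continuous.comp (continuous_id.prodMk continuous_const)
  have b2 : ∀ x t, (1 + x ^ 2) * ‖ψ (x, t)‖ ^ 2 ≤ C ^ 2 * (1 + x ^ 2)⁻¹ := fun x t => by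
    have h := pow_le_pow_left₀ (norm_nonneg _) (hb (x, t)) 2
    have hp : (0 : ℝ) < 1 + x ^ 2 := by positivity
    calc _ ≤ (1 + x ^ 2) * (C / (1 + x ^ 2)) ^ 2 := mul_le_mul_of_nonneg_left h hp.le
      _ = _ := by field_simp
  have b3 : ∀ x t, ‖ψ (x, t)‖ ^ 2 ≤ C ^ 2 * (1 + x ^ 2)⁻¹ := fun x t => by
    refine le_trans ?_ (b2 x t)
    nlinarith [mul_nonneg (sq_nonneg x) (sq_nonneg ‖ψ (x, t)‖)]
  have iC := integrable_inv_one_add_sq.const_mul (C ^ 2)
  have i1 : ∀ t, Integrable fun x => (1 + x ^ 2) * ‖ψ (x, t)‖ ^ 2 := fun t =>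
    iC.mono' ((continuous_const.add (continuous_id.pow 2)).mul
      ((cx t).norm.pow 2)).aestronglyMeasurable (Eventually.of_forall fun x => by
        rw [Real.norm_of_nonneg (by positivity)]; exact b2 x t)
  refine ⟨V, ψ, ⟨h0, fun h => hne (by rw [h]; rfl), sV, bd, fun N => ?_⟩,
    ⟨sψ, pde, fun t => ?_, fun s => ?_⟩, ⟨fun h => hψ 0 (by rw [h]; rfl), 1, one_pos,
      ∫ x : ℝ, C ^ 2 * (1 + x ^ 2)⁻¹, fun t => ?_⟩, fun t E f d1 d2 hf he => ?_,
    fun x t hx => hs (x, t) (by have := sq_abs x; simp only; nlinarith),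
    P, hP, fun x t => by simpa using per (x, t)⟩
  · refine ⟨K * (17 : ℝ) ^ ((N : ℝ) / 2), fun x t => ?_⟩
    have hK0 : 0 ≤ K := (abs_nonneg _).trans (hK 0)
    by_cases hx : 16 < x ^ 2
    · rw [hs (x, t) hx, abs_zero]; positivity
    · refine (hK _).trans ?_
      rw [mul_assoc]
      refine le_mul_of_one_le_right hK0 ?_
      have hp : (0 : ℝ) < 1 + x ^ 2 := by positivity
      rw [neg_div, Real.rpow_neg hp.le, ← div_eq_mul_inv, one_le_div (Real.rpow_pos_of_pos hp _)]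
      exact Real.rpow_le_rpow hp.le (by linarith) (by positivity)
  · refine (memLp_two_iff_integrable_sq_norm (cx t).aestronglyMeasurable).2 ?_
    exact iC.mono' ((cx t).norm.pow 2).aestronglyMeasurable (Eventually.of_forall fun x => by
      rw [Real.norm_of_nonneg (by positivity)]; exact b3 x t)
  · have : Continuous fun t => ∫ x, ‖ψ (x, t) - ψ (x, s)‖ ^ 2 := by
      refine continuous_of_dominated (bound := fun x => 4 * (C ^ 2 * (1 + x ^ 2)⁻¹))
        (fun t => (((cx t).sub (cx s)).norm.pow 2).aestronglyMeasurable)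
        (fun t => Eventually.of_forall fun x => ?_) (iC.const_mul 4)
        (Eventually.of_forall fun x => ((sψ.continuous.comp
          (continuous_const.prodMk continuous_id)).sub continuous_const).norm.pow 2)
      rw [Real.norm_of_nonneg (by positivity)]
      have a := pow_le_pow_left₀ (norm_nonneg _) (norm_sub_le (ψ (x, t)) (ψ (x, s))) 2
      nlinarith [b3 x t, b3 x s, sq_nonneg (‖ψ (x, t)‖ - ‖ψ (x, s)‖)]
    simpa using this.tendsto s
  · simp only [Real.rpow_one]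
    exact ⟨i1 t, integral_mono (i1 t) iC fun x => b2 x t⟩
  · refine no_eig (fun x => h0 _) (fun x hx => hs (x, t) (by simp only; nlinarith))
      (fun x => (le_abs_self _).trans (hK _)) E f d1 d2 he ?_
    exact (memLp_two_iff_integrable_sq_norm d1.continuous.aestronglyMeasurable).1 hf

end Pool.Agent.Results.MP_4efd05_mp.Bound
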